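import Pool.Agent.Lib.MP_ac8845_lc.Rado

/-!
# Graph lemmas: boundary map, bond matroid, heavy and light sides
-/

open Finset Module

set_option linter.unusedSectionVars false

namespace Pool.Agent.Lib.MP_ac8845_lc

open scoped Classical

variable {V : Type*} [Fintype V] (G : SimpleGraph V)

/-- The edges incident to `v`. -/
noncomputable def inc (v : V) : Finset G.edgeSet :=
  Finset.univ.filter (fun e => v ∈ (e : Sym2 V))

/-- The boundary map over `ZMod 2`. -/
noncomputable def bd : (G.edgeSet → ZMod 2) →ₗ[ZMod 2] (V → ZMod 2) where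
  toFun x := fun v => ∑ e ∈ inc G v, x e
  map_add' x y := by
    funext v
    simp [Finset.sum_add_distrib]
  map_smul' c x := by
    funext v
    simp [Finset.mul_sum]

lemma mem_inc {v : V} {e : G.edgeSet} : e ∈ inc G v ↔ v ∈ (e : Sym2 V) := by
  simp [inc]

lemma bd_apply (x : G.edgeSet → ZMod 2) (v : V) : bd G x v = ∑ e ∈ inc G v, x e := rfl

/-- The cycle space. -/
noncomputable def cyc : Submodule (ZMod 2) (G.edgeSet → ZMod 2) := LinearMap.ker (bd G)

lemma mem_cyc {x : G.edgeSet → ZMod 2} : x ∈ cyc G ↔ bd G x = 0 := Iff.rfl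

/-- The indicator function of a vertex. -/
noncomputable def dl (u : V) : V → ZMod 2 := fun v => if v = u then 1 else 0

/-- The edge `uv` of `G`. -/
def ed {u v : V} (h : G.Adj u v) : G.edgeSet := ⟨s(u, v), h⟩

lemma ed_val {u v : V} (h : G.Adj u v) : (ed G h : Sym2 V) = s(u, v) := rfl

lemma ed_symm {u v : V} (h : G.Adj u v) : ed G h.symm = ed G h := Subtype.ext Sym2.eq_swap

/-- The indicator function of an edge. -/
noncomputable def ind (e : G.edgeSet) : G.edgeSet → ZMod 2 := fun e' => if e' = e then 1 else 0

lemma add_self_fun {α : Type*} (x : α → ZMod 2) : x + x = 0 := by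
  funext a
  exact CharTwo.add_self_eq_zero (x a)

lemma bd_ind (e : G.edgeSet) (a b : V) (h : (e : Sym2 V) = s(a, b)) :
    bd G (ind G e) = dl a + dl b := by
  have hab : a ≠ b := by
    have h1 := e.2
    rw [h, SimpleGraph.mem_edgeSet] at h1
    exact h1.ne
  funext v
  rw [bd_apply]
  have h1 : ∑ e' ∈ inc G v, ind G e e' = if e ∈ inc G v then 1 else 0 := by
    simp only [ind]
    rw [Finset.sum_ite_eq']
  rw [h1]
  simp only [inc, Finset.mem_filter, Finset.mem_univ, true_and, h, Sym2.mem_iff, dl,
    Pi.add_apply]
  by_cases h2 : v = a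
  · subst h2
    simp [hab]
  · by_cases h3 : v = b
    · subst h3
      simp [h2]
    · simp [h2, h3]

/-- The graph with the edges in `S` removed. -/
def del (S : Finset G.edgeSet) : SimpleGraph V where
  Adj u v := ∃ h : G.Adj u v, (ed G h) ∉ S
  symm := ⟨by
    rintro u v ⟨h, h'⟩
    refine ⟨h.symm, ?_⟩
    rwa [ed_symm]⟩
  loopless := ⟨by
    rintro u ⟨h, -⟩
    exact h.ne rfl⟩

lemma del_adj {S : Finset G.edgeSet} {u v : V} :
    (del G S).Adj u v ↔ ∃ h : G.Adj u v, (ed G h) ∉ S := Iff.rfl

lemma del_anti {S T : Finset G.edgeSet} (h : S ⊆ T) : del G T ≤ del G S := by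
  intro u v
  rintro ⟨h1, h2⟩
  exact ⟨h1, fun h3 => h2 (h h3)⟩

lemma del_empty : del G ∅ = G := by
  ext u v
  rw [del_adj]
  constructor
  · rintro ⟨h, -⟩
    exact h
  · intro h
    exact ⟨h, by simp⟩

/-- Induction along reachability. -/
lemma reach_ind {H : SimpleGraph V} {u v : V} (h : H.Reachable u v) (p : V → Prop) (hu : p u)
    (hstep : ∀ x y, p x → H.Adj x y → p y) : p v := by
  obtain ⟨w⟩ := h
  induction w with
  | nil => exact hu
  | cons hadj w ih => exact ih (hstep _ _ hu hadj)

lemma exists_path_vec {S : Finset G.edgeSet} {u v : V} (h : (del G S).Reachable u v) :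
    ∃ y : G.edgeSet → ZMod 2, (∀ e ∈ S, y e = 0) ∧ bd G y = dl u + dl v := by
  refine reach_ind h (fun v => ∃ y : G.edgeSet → ZMod 2, (∀ e ∈ S, y e = 0) ∧
    bd G y = dl u + dl v) ⟨0, fun _ _ => rfl, ?_⟩ ?_
  · rw [map_zero, add_self_fun]
  · rintro x y ⟨z, hz, hbz⟩ ⟨hadj, hS⟩
    refine ⟨z + ind G (ed G hadj), ?_, ?_⟩
    · intro e he
      have : e ≠ (ed G hadj) := by
        rintro rfl
        exact hS he
      simp [hz e he, ind, this]
    · rw [map_add, hbz, bd_ind G _ x y rfl]
      have h1 : dl x + dl x = (0 : V → ZMod 2) := add_self_fun _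
      calc dl u + dl x + (dl x + dl y) = dl u + (dl x + dl x) + dl y := by abel
        _ = dl u + dl y := by rw [h1, add_zero]

lemma edge_eq (e : G.edgeSet) : ∃ a b : V, ∃ h : G.Adj a b, e = (ed G h) := by
  obtain ⟨e, he⟩ := e
  induction e using Sym2.ind with
  | _ a b => exact ⟨a, b, he, rfl⟩

/-- Sets whose removal keeps the graph connected are independent in the bond matroid. -/
lemma card_le_rk_of_connected (B : Finset G.edgeSet) (h : (del G B).Connected) :
    B.card ≤ rk (cyc G) B := by
  induction B using Finset.induction_on with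
  | empty => simp
  | insert e B he ih =>
    have h1 : (del G B).Connected := h.mono (del_anti G (Finset.subset_insert e B))
    have h2 := ih h1
    obtain ⟨a, b, hab, rfl⟩ := edge_eq G e
    obtain ⟨y, hy, hby⟩ := exists_path_vec G (h.preconnected a b)
    rw [Finset.card_insert_of_notMem he, rk_insert_of_exists]
    · omega
    · refine ⟨y + ind G (ed G hab), ?_, ?_, ?_⟩
      · rw [mem_cyc, map_add, hby, bd_ind G _ a b rfl]
        exact add_self_fun _
      · intro e' he'
        have : e' ≠ (ed G hab) := by
          rintro rfl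
          exact he he'
        simp [hy e' (Finset.mem_insert_of_mem he'), ind, this]
      · simp [hy _ (Finset.mem_insert_self _ B), ind]

/-- A maximal subset of `S` whose removal keeps the graph connected. -/
lemma exists_basis (hG : G.Connected) (S : Finset G.edgeSet) :
    ∃ B ⊆ S, (del G B).Connected ∧ (∀ e ∈ S, e ∉ B → ¬ (del G (insert e B)).Connected) ∧
      B.card ≤ rk (cyc G) S := by
  obtain ⟨B, hB, hmax⟩ := Finset.exists_max_image
    (S.powerset.filter (fun B => (del G B).Connected)) Finset.card
    ⟨∅, by simp [del_empty, hG]⟩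
  rw [Finset.mem_filter, Finset.mem_powerset] at hB
  refine ⟨B, hB.1, hB.2, ?_, ?_⟩
  · intro e he heB hcon
    have h1 := hmax (insert e B) (by
      rw [Finset.mem_filter, Finset.mem_powerset]
      exact ⟨Finset.insert_subset he hB.1, hcon⟩)
    rw [Finset.card_insert_of_notMem heB] at h1
    omega
  · exact le_trans (card_le_rk_of_connected G B hB.2) ((isRank_rk _).mono _ _ hB.1)

/-- Removing one more edge. -/
lemma reach_or {S : Finset G.edgeSet} {a b : V} (hab : G.Adj a b) {u v : V}
    (h : (del G S).Reachable u v) :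
    (del G (insert (ed G hab) S)).Reachable u v ∨
      ((del G (insert (ed G hab) S)).Reachable u a ∧
        (del G (insert (ed G hab) S)).Reachable b v) ∨
      ((del G (insert (ed G hab) S)).Reachable u b ∧
        (del G (insert (ed G hab) S)).Reachable a v) := by
  set K := del G (insert (ed G hab) S) with hK
  refine reach_ind h (fun v => K.Reachable u v ∨ (K.Reachable u a ∧ K.Reachable b v) ∨
    (K.Reachable u b ∧ K.Reachable a v)) (Or.inl (SimpleGraph.Reachable.refl u)) ?_
  rintro x y hx ⟨hadj, hS⟩
  by_cases hxy : s(x, y) = s(a, b)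
  · rw [Sym2.eq_iff] at hxy
    rcases hxy with ⟨rfl, rfl⟩ | ⟨rfl, rfl⟩
    · rcases hx with h1 | ⟨h1, h2⟩ | ⟨h1, h2⟩
      · exact Or.inr (Or.inl ⟨h1, SimpleGraph.Reachable.refl _⟩)
      · exact Or.inl (h1.trans h2.symm)
      · exact Or.inl h1
    · rcases hx with h1 | ⟨h1, h2⟩ | ⟨h1, h2⟩
      · exact Or.inr (Or.inr ⟨h1, SimpleGraph.Reachable.refl _⟩)
      · exact Or.inl h1
      · exact Or.inl (h1.trans h2.symm)
  · have hKadj : K.Adj x y := by
      refine ⟨hadj, ?_⟩
      intro hmem
      rcases Finset.mem_insert.1 hmem with h1 | h1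
      · exact hxy (congrArg Subtype.val h1)
      · exact hS h1
    rcases hx with h1 | ⟨h1, h2⟩ | ⟨h1, h2⟩
    · exact Or.inl (h1.trans hKadj.reachable)
    · exact Or.inr (Or.inl ⟨h1, h2.trans hKadj.reachable⟩)
    · exact Or.inr (Or.inr ⟨h1, h2.trans hKadj.reachable⟩)

/-- If removing the edge `ab` disconnects a connected graph then it separates `a` from `b`. -/
lemma not_reach_ends {B : Finset G.edgeSet} (hB : (del G B).Connected) {a b : V}
    (hab : G.Adj a b) (hcon : ¬ (del G (insert (ed G hab) B)).Connected) :
    ¬ (del G (insert (ed G hab) B)).Reachable a b := by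
  intro hr
  apply hcon
  have : Nonempty V := ⟨a⟩
  refine SimpleGraph.Connected.mk ?_
  intro u v
  rcases reach_or G hab (hB.preconnected u v) with h | ⟨h1, h2⟩ | ⟨h1, h2⟩
  · exact h
  · exact h1.trans (hr.trans h2)
  · exact h1.trans (hr.symm.trans h2)

/-- Separation lemma: if no single bridge in `D` separates `u` from `y`, then `D` does not. -/
lemma reach_union {B : Finset G.edgeSet} (hB : (del G B).Connected) (D : Finset G.edgeSet)
    (hD : ∀ e ∈ D, ¬ (del G (insert e B)).Connected) {u y : V}
    (h : ∀ e ∈ D, (del G (insert e B)).Reachable u y) : (del G (B ∪ D)).Reachable u y := by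
  induction D using Finset.induction_on with
  | empty =>
    rw [Finset.union_empty]
    exact hB.preconnected u y
  | insert e D he ih =>
    have ih' := ih (fun e' he' => hD e' (Finset.mem_insert_of_mem he'))
      (fun e' he' => h e' (Finset.mem_insert_of_mem he'))
    obtain ⟨a, b, hab, rfl⟩ := edge_eq G e
    have hsub : del G (insert (ed G hab) (B ∪ D)) ≤ del G (insert (ed G hab) B) :=
      del_anti G (Finset.insert_subset_insert _ Finset.subset_union_left)
    have hne := not_reach_ends G hB hab (hD _ (Finset.mem_insert_self _ _))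
    have huy := h _ (Finset.mem_insert_self _ _)
    rw [Finset.union_insert]
    rcases reach_or G hab ih' with h1 | ⟨h1, h2⟩ | ⟨h1, h2⟩
    · exact h1
    · exact absurd ((h1.mono hsub).symm.trans (huy.trans (h2.mono hsub).symm)) hne
    · exact absurd ((h2.mono hsub).trans (huy.symm.trans (h1.mono hsub))) hne

/-- The edge boundary of a set of vertices. -/
noncomputable def bdry (X : Finset V) : Finset G.edgeSet :=
  Finset.univ.filter (fun e => ∃ u ∈ X, ∃ v ∉ X, (e : Sym2 V) = s(u, v))

lemma mem_bdry {X : Finset V} {e : G.edgeSet} :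
    e ∈ bdry G X ↔ ∃ u ∈ X, ∃ v ∉ X, (e : Sym2 V) = s(u, v) := by
  simp [bdry]

lemma bdry_compl (X : Finset V) : bdry G Xᶜ = bdry G X := by
  ext e
  rw [mem_bdry, mem_bdry]
  constructor
  · rintro ⟨u, hu, v, hv, h⟩
    refine ⟨v, by simpa using hv, u, by simpa using hu, ?_⟩
    rw [h, Sym2.eq_swap]
  · rintro ⟨u, hu, v, hv, h⟩
    refine ⟨v, by simpa using hv, u, by simpa using hu, ?_⟩
    rw [h, Sym2.eq_swap]

/-- A set closed under adjacency of `del G T` has its boundary inside `T`. -/
lemma bdry_subset {T : Finset G.edgeSet} {X : Finset V}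
    (h : ∀ x ∈ X, ∀ y, (del G T).Adj x y → y ∈ X) : bdry G X ⊆ T := by
  intro e he
  rw [mem_bdry] at he
  obtain ⟨u, hu, v, hv, huv⟩ := he
  by_contra hT
  apply hv
  have hadj : G.Adj u v := by
    have h1 := e.2
    rwa [huv] at h1
  refine h u hu v ⟨hadj, ?_⟩
  have : (ed G hadj) = e := Subtype.ext huv.symm
  rwa [this]

/-- Growing a light set by light sets. -/
lemma grow {ι : Type*} (n : ℕ) (L : ι → Finset V) (I : Finset ι)
    (hL : ∀ i ∈ I, 3 * (L i).card < n) (X0 : Finset V) (h0 : 3 * X0.card < n)
    (hw : ∀ I' ⊆ I, ¬ (n ≤ 3 * (X0 ∪ I'.biUnion L).card ∧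
      3 * (X0 ∪ I'.biUnion L).card ≤ 2 * n)) :
    3 * (X0 ∪ I.biUnion L).card < n := by
  induction I using Finset.induction_on with
  | empty => simpa using h0
  | insert i I hi ih =>
    have h1 := ih (fun j hj => hL j (Finset.mem_insert_of_mem hj))
      (fun I' hI' => hw I' (hI'.trans (Finset.subset_insert i I)))
    have h2 := hL i (Finset.mem_insert_self i I)
    have h3 := hw (insert i I) (Finset.Subset.refl _)
    have h4 : (X0 ∪ (insert i I).biUnion L).card ≤ (X0 ∪ I.biUnion L).card + (L i).card := by
      rw [Finset.biUnion_insert]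
      have : X0 ∪ (L i ∪ I.biUnion L) = (X0 ∪ I.biUnion L) ∪ L i := by
        ext x; simp only [Finset.mem_union]; tauto
      rw [this]
      exact Finset.card_union_le _ _
    by_contra h5
    apply h3
    constructor <;> omega

variable {G}

/-- The data of a light side of a bridge `e` of `del G B`. -/
structure LightSide (B : Finset G.edgeSet) (e : G.edgeSet) (L : Finset V) : Prop where
  light : 3 * L.card < Fintype.card V
  iff_reach : ∀ x y, (x ∈ L ↔ y ∈ L) ↔ (del G (insert e B)).Reachable x y

lemma exists_lightSide {B : Finset G.edgeSet} (hB : (del G B).Connected) {e : G.edgeSet}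
    (hcon : ¬ (del G (insert e B)).Connected)
    (hwin : ∀ X : Finset V, Fintype.card V ≤ 3 * X.card → 3 * X.card ≤ 2 * Fintype.card V →
      B.card + 1 < (bdry G X).card) :
    ∃ L, LightSide B e L := by
  obtain ⟨a, b, hab, rfl⟩ := edge_eq G e
  have hne := not_reach_ends G hB hab hcon
  set K := del G (insert (ed G hab) B) with hK
  have hall : ∀ x, K.Reachable a x ∨ K.Reachable b x := by
    intro x
    rcases reach_or G hab (hB.preconnected a x) with h | ⟨h1, h2⟩ | ⟨h1, h2⟩
    · exact Or.inl h
    · exact Or.inr h2
    · exact Or.inl h2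
  let Xa : Finset V := Finset.univ.filter (fun x => K.Reachable a x)
  have hmem : ∀ x, x ∈ Xa ↔ K.Reachable a x := by
    intro x; simp [Xa]
  have hiff : ∀ x y, (x ∈ Xa ↔ y ∈ Xa) ↔ K.Reachable x y := by
    intro x y
    rw [hmem, hmem]
    constructor
    · intro h
      by_cases hx : K.Reachable a x
      · exact hx.symm.trans (h.1 hx)
      · have hy : ¬ K.Reachable a y := fun h' => hx (h.2 h')
        have hx' := (hall x).resolve_left hx
        have hy' := (hall y).resolve_left hy
        exact hx'.symm.trans hy'
    · intro h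
      exact ⟨fun h' => h'.trans h, fun h' => h'.trans h.symm⟩
  have hb : bdry G Xa ⊆ insert (ed G hab) B := by
    refine bdry_subset G ?_
    intro x hx y hxy
    exact ((hiff x y).2 hxy.reachable).1 hx
  have hcard : (bdry G Xa).card ≤ B.card + 1 :=
    le_trans (Finset.card_le_card hb) (Finset.card_insert_le _ _)
  have hsum : Xa.card + Xaᶜ.card = Fintype.card V := by
    rw [Finset.card_add_card_compl]
  by_cases h1 : 3 * Xa.card < Fintype.card V
  · exact ⟨Xa, h1, hiff⟩
  · by_cases h2 : 3 * Xa.card ≤ 2 * Fintype.card V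
    · exact absurd (hwin Xa (by omega) h2) (by omega)
    · refine ⟨Xaᶜ, by omega, ?_⟩
      intro x y
      rw [← hiff, Finset.mem_compl, Finset.mem_compl, not_iff_not]

lemma LightSide.bdry_subset {B : Finset G.edgeSet} {e : G.edgeSet} {L : Finset V}
    (h : LightSide B e L) : bdry G L ⊆ insert e B := by
  refine Pool.Agent.Lib.MP_ac8845_lc.bdry_subset G ?_
  intro x hx y hxy
  exact ((h.iff_reach x y).2 hxy.reachable).1 hx

/-- Core of a set of edges: the vertices lying in all heavy sets with small boundary in `S`. -/
def core (G : SimpleGraph V) (k : ℕ) (S : Finset G.edgeSet) : Set V :=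
  {u | ∀ H : Finset V, 2 * Fintype.card V < 3 * H.card → bdry G H ⊆ S →
    (bdry G H).card ≤ k + 1 → u ∈ H}

lemma core_anti {k : ℕ} {S T : Finset G.edgeSet} (h : S ⊆ T) : core G k T ⊆ core G k S :=
  fun _ hu H h1 h2 h3 => hu H h1 (h2.trans h) h3

lemma core_reach (hG : G.Connected) {k t : ℕ} (hkt : k + 1 ≤ t)
    (hwin : ∀ X : Finset V, Fintype.card V ≤ 3 * X.card → 3 * X.card ≤ 2 * Fintype.card V →
      t < (bdry G X).card) {S : Finset G.edgeSet} (hS : rk (cyc G) S ≤ k) {u v : V}
    (hu : u ∈ core G k S) (hv : v ∈ core G k S) : (del G S).Reachable u v := by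
  obtain ⟨B, hBS, hB, hmax, hcard⟩ := exists_basis G hG S
  by_contra hcon
  have h1 : ¬ ∀ e ∈ S \ B, (del G (insert e B)).Reachable u v := by
    intro hall
    apply hcon
    have h2 := reach_union G hB (S \ B) (fun e he => by
      rw [Finset.mem_sdiff] at he
      exact hmax e he.1 he.2) hall
    rwa [Finset.union_sdiff_of_subset hBS] at h2
  push Not at h1
  obtain ⟨e, he, hne⟩ := h1
  rw [Finset.mem_sdiff] at he
  let X : Finset V := Finset.univ.filter (fun x => (del G (insert e B)).Reachable u x)
  have hmem : ∀ x, x ∈ X ↔ (del G (insert e B)).Reachable u x := by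
    intro x; simp [X]
  have hb : bdry G X ⊆ insert e B := by
    refine bdry_subset G ?_
    intro x hx y hxy
    rw [hmem] at hx ⊢
    exact hx.trans hxy.reachable
  have hbS : bdry G X ⊆ S := hb.trans (Finset.insert_subset he.1 hBS)
  have hc : (bdry G X).card ≤ k + 1 :=
    le_trans (Finset.card_le_card hb) (le_trans (Finset.card_insert_le _ _) (by omega))
  have hsum : X.card + Xᶜ.card = Fintype.card V := by
    rw [Finset.card_add_card_compl]
  by_cases h1 : 2 * Fintype.card V < 3 * X.card
  · exact hne ((hmem v).1 (hv X h1 hbS hc))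
  · by_cases h2 : Fintype.card V ≤ 3 * X.card
    · exact absurd (hwin X h2 (by omega)) (by omega)
    · have h3 := hu Xᶜ (by omega) (by rwa [bdry_compl]) (by rwa [bdry_compl])
      rw [Finset.mem_compl] at h3
      exact h3 ((hmem u).2 (SimpleGraph.Reachable.refl u))

/-- Reachability within a set closed under adjacency avoids an edge outside this set. -/
lemma reach_avoid {T : Finset G.edgeSet} {p : V → Prop}
    (hp : ∀ x y, p x → (del G T).Adj x y → p y) {c d : V} (hcd : G.Adj c d) (hc : ¬ p c)
    (hd : ¬ p d) {a z : V} (ha : p a) (h : (del G T).Reachable a z) :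
    (del G (insert (ed G hcd) T)).Reachable a z := by
  have := reach_ind h (fun z => p z ∧ (del G (insert (ed G hcd) T)).Reachable a z)
    ⟨ha, SimpleGraph.Reachable.refl a⟩ (by
      rintro x y ⟨hx, hax⟩ hxy
      refine ⟨hp x y hx hxy, hax.trans ?_⟩
      refine SimpleGraph.Adj.reachable ?_
      obtain ⟨hadj, hT⟩ := hxy
      refine ⟨hadj, ?_⟩
      intro hmem
      rcases Finset.mem_insert.1 hmem with h1 | h1
      · have h2 : s(x, y) = s(c, d) := congrArg Subtype.val h1
        rw [Sym2.eq_iff] at h2
        rcases h2 with ⟨rfl, rfl⟩ | ⟨rfl, rfl⟩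
        · exact hc hx
        · exact hd hx
      · exact hT h1)
  exact this.2

/-- The core of a set of small rank has at least two elements. -/
lemma exists_mem_core (hG : G.Connected) {k t : ℕ} (hk : 2 ≤ k) (hkt : 3 * k + 1 ≤ t)
    (hdeg : ∀ v, (inc G v).card ≤ 3) (hV : 2 ≤ Fintype.card V)
    (hwin : ∀ X : Finset V, Fintype.card V ≤ 3 * X.card → 3 * X.card ≤ 2 * Fintype.card V →
      t < (bdry G X).card) {S : Finset G.edgeSet} (hS : rk (cyc G) S ≤ 2 * k) (v : V) :
    ∃ u, u ≠ v ∧ u ∈ core G k S := by
  obtain ⟨B, hBS, hB, hmax, hcard⟩ := exists_basis G hG S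
  have hBk : B.card ≤ 2 * k := le_trans hcard hS
  have hL : ∀ e ∈ S \ B, ∃ L, LightSide B e L := by
    intro e he
    rw [Finset.mem_sdiff] at he
    refine exists_lightSide hB (hmax e he.1 he.2) ?_
    intro X h1 h2
    have := hwin X h1 h2
    omega
  choose! L hL using hL
  set EE := S \ B with hEE
  have hEEB : ∀ e ∈ EE, e ∉ B := fun e he => (Finset.mem_sdiff.1 he).2
  -- edges other than e, outside B, do not cross L e
  have hcross : ∀ e ∈ EE, ∀ x y (hxy : G.Adj x y), (ed G hxy) ∉ B →
      (ed G hxy) ≠ e → (x ∈ L e ↔ y ∈ L e) := by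
    intro e he x y hxy h1 h2
    refine ((hL e he).iff_reach x y).2 (SimpleGraph.Adj.reachable ⟨hxy, ?_⟩)
    intro hmem
    rcases Finset.mem_insert.1 hmem with h3 | h3
    · exact h2 h3
    · exact h1 h3
  -- endpoints of e are separated
  have hsep : ∀ e ∈ EE, ∀ x y (hxy : G.Adj x y), (ed G hxy) = e →
      ¬ (x ∈ L e ↔ y ∈ L e) := by
    intro e he x y hxy h1 h2
    subst h1
    have h3 := ((hL _ he).iff_reach x y).1 h2
    exact not_reach_ends G hB hxy (hmax _ (Finset.mem_sdiff.1 he).1 (Finset.mem_sdiff.1 he).2) h3
  let K : Set V := {u | ∀ e ∈ EE, u ∉ L e}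
  -- Step 1: K is nonempty
  have hK : ∃ u, u ∈ K := by
    by_cases hne : EE.Nonempty
    · obtain ⟨e, he, hemax⟩ := Finset.exists_max_image EE (fun e => (L e).card) hne
      obtain ⟨a, b, hab, hae, hbe, heab⟩ : ∃ a b, ∃ hab : G.Adj a b, a ∈ L e ∧ b ∉ L e ∧
          e = (ed G hab) := by
        obtain ⟨a, b, hab, hee⟩ := edge_eq G e
        have h1 := hsep e he a b hab hee.symm
        by_cases ha : a ∈ L e
        · by_cases hb : b ∈ L e
          · exact absurd (iff_of_true ha hb) h1
          · exact ⟨a, b, hab, ha, hb, hee⟩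
        · by_cases hb : b ∈ L e
          · exact ⟨b, a, hab.symm, hb, ha, by rw [hee]; exact Subtype.ext Sym2.eq_swap⟩
          · exact absurd (iff_of_false ha hb) h1
      refine ⟨b, ?_⟩
      intro f hf hbf
      have hfe : f ≠ e := by
        rintro rfl
        exact hbe hbf
      have haf : a ∈ L f := by
        refine (hcross f hf a b hab ?_ ?_).2 hbf
        · rw [← heab]; exact hEEB e he
        · rw [← heab]; exact hfe.symm
      obtain ⟨c, d, hcd, hfcd⟩ := edge_eq G f
      have hcdL : (c ∈ L e ↔ d ∈ L e) := by
        refine hcross e he c d hcd ?_ ?_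
        · rw [← hfcd]; exact hEEB f hf
        · rw [← hfcd]; exact hfe
      have hmono : del G (insert (ed G hcd) (insert e B)) ≤ del G (insert f B) := by
        refine del_anti G ?_
        rw [← hfcd]
        exact Finset.insert_subset_insert f (Finset.subset_insert e B)
      by_cases hc : c ∈ L e
      · have hd : d ∈ L e := hcdL.1 hc
        -- the complement of L e is contained in L f
        have hsub : (L e)ᶜ ⊆ L f := by
          intro z hz
          rw [Finset.mem_compl] at hz
          have h1 : (del G (insert e B)).Reachable b z :=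
            ((hL e he).iff_reach b z).1 (iff_of_false hbe hz)
          have h2 := reach_avoid (p := fun x => x ∉ L e) (T := insert e B)
            (fun x y hx hxy hy => hx (((hL e he).iff_reach x y).2 hxy.reachable |>.2 hy))
            hcd (by simpa using hc) (by simpa using hd) hbe h1
          exact (((hL f hf).iff_reach b z).2 (h2.mono hmono)).1 hbf
        have h1 := Finset.card_le_card hsub
        have h2 := (hL e he).light
        have h3 := (hL f hf).light
        have h4 := Finset.card_add_card_compl (L e)
        omega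
      · have hd : d ∉ L e := fun h => hc (hcdL.2 h)
        have hsub : insert b (L e) ⊆ L f := by
          intro z hz
          rcases Finset.mem_insert.1 hz with rfl | hz
          · exact hbf
          · have h1 : (del G (insert e B)).Reachable a z :=
              ((hL e he).iff_reach a z).1 (iff_of_true hae hz)
            have h2 := reach_avoid (p := fun x => x ∈ L e) (T := insert e B)
              (fun x y hx hxy => (((hL e he).iff_reach x y).2 hxy.reachable).1 hx)
              hcd hc hd hae h1
            exact (((hL f hf).iff_reach a z).2 (h2.mono hmono)).1 haf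
        have h1 := Finset.card_le_card hsub
        rw [Finset.card_insert_of_notMem hbe] at h1
        have h2 : (L f).card ≤ (L e).card := hemax f hf
        omega
    · rw [Finset.not_nonempty_iff_eq_empty] at hne
      refine ⟨v, ?_⟩
      intro e he
      rw [hne] at he
      simp at he
  -- Step 2: K has an element other than v
  have hK2 : ∃ u, u ≠ v ∧ u ∈ K := by
    by_contra hcon
    push Not at hcon
    obtain ⟨u0, hu0⟩ := hK
    have hu0v : u0 = v := by
      by_contra h
      exact hcon u0 h hu0
    subst hu0v
    have hcover : ∀ u, u ≠ u0 → ∃ e ∈ EE ∩ inc G u0, u ∈ L e := by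
      intro u hu
      by_contra hcon2
      push Not at hcon2
      have h1 : (del G (B ∪ (EE ∩ inc G u0))).Reachable u0 u := by
        refine reach_union G hB _ ?_ ?_
        · intro e he
          have he' := Finset.mem_sdiff.1 (Finset.mem_inter.1 he).1
          exact hmax e he'.1 he'.2
        · intro e he
          exact ((hL e (Finset.mem_inter.1 he).1).iff_reach u0 u).1
            (iff_of_false (hu0 e (Finset.mem_inter.1 he).1) (hcon2 e he))
      obtain ⟨p⟩ := h1
      cases p with
      | nil => exact hu rfl
      | cons hadj p =>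
        rename_i v1
        obtain ⟨hG1, hnm⟩ := hadj
        have hne : v1 ≠ u0 := hG1.ne.symm
        apply hcon v1 hne
        intro e he hv1
        have hnB : (ed G hG1) ∉ B :=
          fun h => hnm (Finset.mem_union_left _ h)
        have hnE : (ed G hG1) ≠ e := by
          intro h
          apply hnm
          refine Finset.mem_union_right _ (Finset.mem_inter.2 ⟨h ▸ he, ?_⟩)
          rw [mem_inc, ed_val]
          exact Sym2.mem_mk_left _ _
        exact hu0 e he ((hcross e he u0 v1 hG1 hnB hnE).2 hv1)
    have hsmall : 3 * ({u0} : Finset V).card < Fintype.card V := by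
      rw [Finset.card_singleton]
      by_contra hlt
      have h1 := hwin {u0} (by rw [Finset.card_singleton]; omega)
        (by rw [Finset.card_singleton]; omega)
      have h2 : bdry G {u0} ⊆ inc G u0 := by
        intro e he
        rw [mem_bdry] at he
        obtain ⟨x, hx, y, hy, h⟩ := he
        rw [Finset.mem_singleton] at hx
        subst hx
        simp [inc, h]
      have h3 := Finset.card_le_card h2
      have h4 := hdeg u0
      omega
    have hg := grow (Fintype.card V) L (EE ∩ inc G u0)
      (fun e he => (hL e (Finset.mem_inter.1 he).1).light) {u0} hsmall (by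
        rintro I' hI' ⟨h1, h2⟩
        have h3 := hwin _ h1 h2
        have h4 : bdry G ({u0} ∪ I'.biUnion L) ⊆ B ∪ inc G u0 := by
          intro g hg
          rw [mem_bdry] at hg
          obtain ⟨x, hx, y, hy, h⟩ := hg
          have hadj : G.Adj x y := by
            have h5 := g.2
            rwa [h] at h5
          have hg' : g = (ed G hadj) := Subtype.ext h
          by_cases hgB : g ∈ B
          · exact Finset.mem_union_left _ hgB
          · refine Finset.mem_union_right _ ?_
            rcases Finset.mem_union.1 hx with hx | hx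
            · rw [Finset.mem_singleton] at hx
              subst hx
              simp [inc, h]
            · obtain ⟨e, he, hxe⟩ := Finset.mem_biUnion.1 hx
              have hye : y ∉ L e := fun h' =>
                hy (Finset.mem_union_right _ (Finset.mem_biUnion.2 ⟨e, he, h'⟩))
              have heI := hI' he
              have hge : g = e := by
                by_contra hne
                have := hcross e (Finset.mem_inter.1 heI).1 x y hadj (by rwa [← hg'])
                  (by rwa [← hg'])
                exact hye (this.1 hxe)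
              rw [hge]
              exact (Finset.mem_inter.1 heI).2
        have h5 := Finset.card_le_card h4
        have h6 := Finset.card_union_le B (inc G u0)
        have h7 := hdeg u0
        omega)
    have huniv : {u0} ∪ (EE ∩ inc G u0).biUnion L = Finset.univ := by
      rw [Finset.eq_univ_iff_forall]
      intro u
      by_cases hu : u = u0
      · exact Finset.mem_union_left _ (Finset.mem_singleton.2 hu)
      · obtain ⟨e, he, hue⟩ := hcover u hu
        exact Finset.mem_union_right _ (Finset.mem_biUnion.2 ⟨e, he, hue⟩)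
    rw [huniv, Finset.card_univ] at hg
    omega
  obtain ⟨u, huv, huK⟩ := hK2
  refine ⟨u, huv, ?_⟩
  intro H hH hHS hHc
  by_contra huH
  have hcover : H ⊆ (EE ∩ bdry G H).biUnion L := by
    intro y hy
    by_contra hcon
    have h1 : ∀ e ∈ EE ∩ bdry G H, y ∉ L e := fun e he h =>
      hcon (Finset.mem_biUnion.2 ⟨e, he, h⟩)
    have h2 : (del G (B ∪ (EE ∩ bdry G H))).Reachable u y := by
      refine reach_union G hB _ ?_ ?_
      · intro e he
        have he' := Finset.mem_sdiff.1 (Finset.mem_inter.1 he).1
        exact hmax e he'.1 he'.2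
      · intro e he
        exact ((hL e (Finset.mem_inter.1 he).1).iff_reach u y).1
          (iff_of_false (huK e (Finset.mem_inter.1 he).1) (h1 e he))
    have h3 : y ∉ H := by
      refine reach_ind h2 (fun z => z ∉ H) huH ?_
      rintro x z hx ⟨hadj, hnm⟩ hz
      apply hnm
      have hmem : (ed G hadj) ∈ bdry G H := by
        rw [mem_bdry]
        exact ⟨z, hz, x, hx, Sym2.eq_swap⟩
      have hmemS := hHS hmem
      by_cases hB' : (ed G hadj) ∈ B
      · exact Finset.mem_union_left _ hB'
      · exact Finset.mem_union_right _ (Finset.mem_inter.2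
          ⟨Finset.mem_sdiff.2 ⟨hmemS, hB'⟩, hmem⟩)
    exact h3 hy
  have hg := grow (Fintype.card V) L (EE ∩ bdry G H)
    (fun e he => (hL e (Finset.mem_inter.1 he).1).light) ∅ (by simp; omega) (by
      rintro I' hI' ⟨h1, h2⟩
      have h3 := hwin _ h1 h2
      have h4 : bdry G (∅ ∪ I'.biUnion L) ⊆ B ∪ I' := by
        intro g hg
        rw [mem_bdry] at hg
        obtain ⟨x, hx, y, hy, h⟩ := hg
        rw [Finset.empty_union] at hx hy
        obtain ⟨e, he, hxe⟩ := Finset.mem_biUnion.1 hx
        have hye : y ∉ L e := fun h' => hy (Finset.mem_biUnion.2 ⟨e, he, h'⟩)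
        have h5 : g ∈ bdry G (L e) := by
          rw [mem_bdry]
          exact ⟨x, hxe, y, hye, h⟩
        have h6 := (hL e (Finset.mem_inter.1 (hI' he)).1).bdry_subset h5
        rcases Finset.mem_insert.1 h6 with h7 | h7
        · exact Finset.mem_union_right _ (h7 ▸ he)
        · exact Finset.mem_union_left _ h7
      have h5 := Finset.card_le_card h4
      have h6 := Finset.card_union_le B I'
      have h7 := Finset.card_le_card hI'
      have h8 : (EE ∩ bdry G H).card ≤ (bdry G H).card :=
        Finset.card_le_card Finset.inter_subset_right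
      omega)
  have h1 := Finset.card_le_card hcover
  rw [Finset.empty_union] at hg
  omega

end Pool.Agent.Lib.MP_ac8845_lc
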