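import Pool.Agent.Lib.MP_ac8845_lc.Graph

/-!
# The locality lemma
-/

open Finset Module

set_option linter.unusedSectionVars false

namespace Pool.Agent.Lib.MP_ac8845_lc

/-! ### Selection by Rado's theorem -/

/-- A commitment on two edges: the value of the first edge or that of the second is as given. -/
abbrev Com (E : Type*) := (E × ZMod 2) × (E × ZMod 2)

/-- The assignment `x` satisfies the commitment `c`. -/
def Com.Sat {E : Type*} (c : Com E) (x : E → ZMod 2) : Prop :=
  x c.1.1 = c.1.2 ∨ x c.2.1 = c.2.2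

/-- The edges used by a set of commitments. -/
def comEdges {E : Type*} [DecidableEq E] (C : Finset (Com E)) : Finset E :=
  C.biUnion (fun c => {c.1.1, c.2.1})

lemma mem_comEdges {E : Type*} [DecidableEq E] {C : Finset (Com E)} {e : E} :
    e ∈ comEdges C ↔ ∃ c ∈ C, e = c.1.1 ∨ e = c.2.1 := by
  simp [comEdges]

section Select

variable {E μ : Type*} [DecidableEq E] [DecidableEq μ] {r : Finset E → ℕ} (hr : IsRank r)

include hr

lemma rank_comEdges_le (C : Finset (Com E)) : r (comEdges C) ≤ 2 * C.card := by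
  refine le_trans (hr.le_card _) ?_
  refine le_trans Finset.card_biUnion_le ?_
  have : ∀ c ∈ C, ({c.1.1, c.2.1} : Finset E).card ≤ 2 := fun c _ => Finset.card_le_two
  calc ∑ c ∈ C, ({c.1.1, c.2.1} : Finset E).card ≤ ∑ c ∈ C, 2 := Finset.sum_le_sum this
    _ = 2 * C.card := by rw [Finset.sum_const, smul_eq_mul, mul_comm]

lemma rank_comEdges_subset {C C' : Finset (Com E)} (hC : 2 * C.card ≤ r (comEdges C))
    (h : C' ⊆ C) : 2 * C'.card ≤ r (comEdges C') := by
  have h1 : comEdges C = comEdges C' ∪ comEdges (C \ C') := by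
    ext e
    simp only [Finset.mem_union, mem_comEdges, Finset.mem_sdiff]
    constructor
    · rintro ⟨c, hc, he⟩
      by_cases hc' : c ∈ C'
      · exact Or.inl ⟨c, hc', he⟩
      · exact Or.inr ⟨c, ⟨hc, hc'⟩, he⟩
    · rintro (⟨c, hc, he⟩ | ⟨c, hc, he⟩)
      · exact ⟨c, h hc, he⟩
      · exact ⟨c, hc.1, he⟩
  have h2 := hr.union_le (comEdges C') (comEdges (C \ C'))
  rw [← h1] at h2
  have h3 := rank_comEdges_le hr (C \ C')
  have h4 := Finset.card_sdiff_add_card_eq_card h
  omega

/-- The selection lemma. -/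
lemma select [Nonempty E] (supp : μ → Finset E) (M : Finset μ) (C : Finset (Com E))
    (hC : 2 * C.card ≤ r (comEdges C)) :
    ∃ (M' : Finset μ) (C' : Finset (Com E)) (S : Finset E) (I : Finset ((μ × Bool) ⊕ Com E))
      (f : (μ × Bool) ⊕ Com E → E),
      M' ⊆ M ∧ C' ⊆ C ∧ S = M'.biUnion supp ∪ comEdges C' ∧
      r S ≤ 4 * M.card ∧
      (∀ m ∈ M, m ∉ M' → ∀ b, Sum.inl (m, b) ∈ I ∧ f (Sum.inl (m, b)) ∈ supp m) ∧
      (∀ m b, Sum.inl (m, b) ∈ I → m ∈ M ∧ m ∉ M') ∧
      (∀ c ∈ C, c ∉ C' → Sum.inr c ∈ I ∧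
        (f (Sum.inr c) = c.1.1 ∨ f (Sum.inr c) = c.2.1)) ∧
      Set.InjOn f I ∧ r S + (I.image f).card ≤ r (S ∪ I.image f) := by
  -- choose a maximal pair
  obtain ⟨⟨M', C'⟩, hMC, hmax⟩ := Finset.exists_max_image
    ((M.powerset ×ˢ C.powerset).filter
      (fun p => r (p.1.biUnion supp ∪ comEdges p.2) ≤ 2 * p.1.card + p.2.card))
    (fun p => p.1.card + p.2.card) ⟨(∅, ∅), by
      rw [Finset.mem_filter, Finset.mem_product]
      refine ⟨⟨Finset.empty_mem_powerset _, Finset.empty_mem_powerset _⟩, ?_⟩
      have h1 : (∅ : Finset μ).biUnion supp ∪ comEdges (∅ : Finset (Com E)) = ∅ := by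
        simp [comEdges]
      simp only [h1, hr.empty, Nat.zero_le]⟩
  simp only [Finset.mem_filter, Finset.mem_product, Finset.mem_powerset] at hMC hmax
  obtain ⟨⟨hM', hC'⟩, hle⟩ := hMC
  set S := M'.biUnion supp ∪ comEdges C' with hS
  have hbound : r S ≤ 4 * M.card := by
    have h1 := rank_comEdges_subset hr hC hC'
    have h2 : r (comEdges C') ≤ r S := hr.mono _ _ Finset.subset_union_right
    have h3 := Finset.card_le_card hM'
    omega
  -- the index set
  let I : Finset ((μ × Bool) ⊕ Com E) := ((M \ M') ×ˢ Finset.univ).disjSum (C \ C')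
  let A : (μ × Bool) ⊕ Com E → Finset E :=
    Sum.elim (fun p => supp p.1) (fun c => {c.1.1, c.2.1})
  have hrado : ∀ J ⊆ I, J.card ≤ r (S ∪ J.biUnion A) - r S := by
    intro J hJ
    let X : Finset μ := J.toLeft.image Prod.fst
    let Y : Finset (Com E) := J.toRight
    have hX : X ⊆ M \ M' := by
      intro m hm
      obtain ⟨p, hp, rfl⟩ := Finset.mem_image.1 hm
      have h1 := hJ (Finset.mem_toLeft.1 hp)
      rw [Finset.inl_mem_disjSum, Finset.mem_product] at h1
      exact h1.1
    have hY : Y ⊆ C \ C' := by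
      intro c hc
      have h1 := hJ (Finset.mem_toRight.1 hc)
      rwa [Finset.inr_mem_disjSum] at h1
    have hJX : J.toLeft.card ≤ 2 * X.card := by
      have h1 : J.toLeft ⊆ X ×ˢ Finset.univ := by
        intro p hp
        exact Finset.mem_product.2 ⟨Finset.mem_image_of_mem _ hp, Finset.mem_univ _⟩
      have h2 := Finset.card_le_card h1
      rw [Finset.card_product, Finset.card_univ, Fintype.card_bool] at h2
      omega
    have hJcard : J.card = J.toLeft.card + J.toRight.card := Finset.card_toLeft_add_card_toRight.symm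
    have hunion : S ∪ J.biUnion A = (M' ∪ X).biUnion supp ∪ comEdges (C' ∪ Y) := by
      ext e
      simp only [hS, Finset.mem_union, Finset.mem_biUnion, mem_comEdges]
      constructor
      · rintro ((⟨m, hm, he⟩ | ⟨c, hc, he⟩) | ⟨j, hj, he⟩)
        · exact Or.inl ⟨m, Or.inl hm, he⟩
        · exact Or.inr ⟨c, Or.inl hc, he⟩
        · rcases j with p | c
          · exact Or.inl ⟨p.1, Or.inr (Finset.mem_image_of_mem _ (Finset.mem_toLeft.2 hj)), he⟩
          · refine Or.inr ⟨c, Or.inr (Finset.mem_toRight.2 hj), ?_⟩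
            simpa [A] using he
      · rintro (⟨m, hm | hm, he⟩ | ⟨c, hc | hc, he⟩)
        · exact Or.inl (Or.inl ⟨m, hm, he⟩)
        · obtain ⟨p, hp, rfl⟩ := Finset.mem_image.1 hm
          exact Or.inr ⟨Sum.inl p, Finset.mem_toLeft.1 hp, he⟩
        · exact Or.inl (Or.inr ⟨c, hc, he⟩)
        · refine Or.inr ⟨Sum.inr c, Finset.mem_toRight.1 hc, ?_⟩
          simpa [A] using he
    have hcX : (M' ∪ X).card = M'.card + X.card := by
      refine Finset.card_union_of_disjoint ?_
      rw [Finset.disjoint_left]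
      intro m hm hm'
      exact (Finset.mem_sdiff.1 (hX hm')).2 hm
    have hcY : (C' ∪ Y).card = C'.card + Y.card := by
      refine Finset.card_union_of_disjoint ?_
      rw [Finset.disjoint_left]
      intro m hm hm'
      exact (Finset.mem_sdiff.1 (hY hm')).2 hm
    have hm := hmax (M' ∪ X, C' ∪ Y)
    simp only at hm
    by_cases h0 : X.card + Y.card = 0
    · have : J.card = 0 := by
        have : J.toRight.card = Y.card := rfl
        omega
      omega
    · have h1 : ¬ r ((M' ∪ X).biUnion supp ∪ comEdges (C' ∪ Y)) ≤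
          2 * (M' ∪ X).card + (C' ∪ Y).card := by
        intro h1
        have h2 := hm ⟨⟨Finset.union_subset hM' (hX.trans Finset.sdiff_subset),
          Finset.union_subset hC' (hY.trans Finset.sdiff_subset)⟩, h1⟩
        omega
      rw [← hunion] at h1
      have : J.toRight.card = Y.card := rfl
      omega
  obtain ⟨f, hf1, hf2⟩ := rado (hr.contract S) I A hrado
  have hge : r S ≤ r (S ∪ I.image f) := hr.mono _ _ Finset.subset_union_left
  have hle2 := hr.union_le_card S (I.image f)
  have hle3 : (I.image f).card ≤ I.card := Finset.card_image_le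
  have hcardeq : (I.image f).card = I.card := by omega
  refine ⟨M', C', S, I, f, hM', hC', rfl, hbound, ?_, ?_, ?_, ?_, by omega⟩
  · intro m hm hm' b
    have hmem : Sum.inl (m, b) ∈ I := by
      rw [Finset.inl_mem_disjSum, Finset.mem_product, Finset.mem_sdiff]
      exact ⟨⟨hm, hm'⟩, Finset.mem_univ _⟩
    exact ⟨hmem, hf1 _ hmem⟩
  · intro m b hmem
    rw [Finset.inl_mem_disjSum, Finset.mem_product, Finset.mem_sdiff] at hmem
    exact hmem.1
  · intro c hc hc'
    have hmem : Sum.inr c ∈ I := by
      rw [Finset.inr_mem_disjSum, Finset.mem_sdiff]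
      exact ⟨hc, hc'⟩
    refine ⟨hmem, ?_⟩
    have := hf1 _ hmem
    simpa [A] using this
  · exact Finset.card_image_iff.1 hcardeq

end Select

/-! ### The families of assignments -/

section Fam

open scoped Classical

variable {V : Type*} [Fintype V] (G : SimpleGraph V)

/-- Assignments satisfying all parity constraints except the one at the root `r0`, and all the
commitments in `C`. -/
def Fam (w : V → ZMod 2) (r0 : V) (C : Finset (Com G.edgeSet)) : Set (G.edgeSet → ZMod 2) :=
  {x | bd G x = w + dl r0 ∧ ∀ c ∈ C, c.Sat x}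

lemma fam_nonempty (hG : G.Connected) {w : V → ZMod 2} (hw : ∑ v, w v = 1) (r0 : V)
    {C : Finset (Com G.edgeSet)} (hC : 2 * C.card ≤ rk (cyc G) (comEdges C)) :
    (Fam G w r0 C).Nonempty := by
  -- an assignment with the right boundary
  have hpath : ∀ u, ∃ y : G.edgeSet → ZMod 2, bd G y = dl u + dl r0 := by
    intro u
    obtain ⟨y, -, hy⟩ := exists_path_vec G (S := ∅) (u := u) (v := r0) (by
      rw [del_empty]
      exact hG.preconnected u r0)
    exact ⟨y, hy⟩
  choose y hy using hpath
  let x0 : G.edgeSet → ZMod 2 := ∑ u, w u • y u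
  have hx0 : bd G x0 = w + dl r0 := by
    simp only [x0, map_sum, map_smul, hy]
    funext v
    simp only [Finset.sum_apply, Pi.smul_apply, Pi.add_apply, smul_eq_mul, mul_add,
      Finset.sum_add_distrib, ← Finset.sum_mul, hw, one_mul]
    congr 1
    simp [dl]
  -- the edges of the commitments are independent
  have hcardC : (comEdges C).card ≤ rk (cyc G) (comEdges C) := by
    refine le_trans ?_ hC
    refine le_trans Finset.card_biUnion_le ?_
    have : ∀ c ∈ C, ({c.1.1, c.2.1} : Finset G.edgeSet).card ≤ 2 := fun c _ => Finset.card_le_two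
    calc ∑ c ∈ C, ({c.1.1, c.2.1} : Finset G.edgeSet).card ≤ ∑ c ∈ C, 2 := Finset.sum_le_sum this
      _ = 2 * C.card := by rw [Finset.sum_const, smul_eq_mul, mul_comm]
  -- all pairs of edges are distinct, so we may pick the value at the first edge
  have hinj : Set.InjOn (fun c : Com G.edgeSet => c.1.1) C := by
    intro c hc c' hc' hcc
    by_contra hne
    -- the union of the two pairs has at most 3 elements
    have h1 := rank_comEdges_subset (isRank_rk (cyc G)) hC (C' := {c, c'}) (by
      intro d hd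
      rcases Finset.mem_insert.1 hd with rfl | hd
      · exact hc
      · rw [Finset.mem_singleton] at hd
        rw [hd]
        exact hc')
    rw [Finset.card_pair hne] at h1
    have h2 := (isRank_rk (cyc G)).le_card (comEdges {c, c'})
    have h3 : comEdges {c, c'} ⊆ {c.1.1, c.2.1, c'.2.1} := by
      intro e he
      rw [mem_comEdges] at he
      obtain ⟨d, hd, he⟩ := he
      rcases Finset.mem_insert.1 hd with rfl | hd
      · rcases he with rfl | rfl <;> simp
      · rw [Finset.mem_singleton] at hd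
        subst hd
        rcases he with rfl | rfl
        · simp only at hcc
          rw [← hcc]
          simp
        · simp
    have h4 := Finset.card_le_card h3
    have h5 : ({c.1.1, c.2.1, c'.2.1} : Finset G.edgeSet).card ≤ 3 := Finset.card_le_three
    omega
  let T : Finset G.edgeSet := C.image (fun c => c.1.1)
  have hT : T ⊆ comEdges C := by
    intro e he
    obtain ⟨c, hc, rfl⟩ := Finset.mem_image.1 he
    exact mem_comEdges.2 ⟨c, hc, Or.inl rfl⟩
  have hTind : rk (cyc G) ∅ + T.card ≤ rk (cyc G) (∅ ∪ T) := by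
    rw [Finset.empty_union, (isRank_rk (cyc G)).empty]
    have h1 := (isRank_rk (cyc G)).union_le_card T (comEdges C \ T)
    rw [Finset.union_sdiff_of_subset hT] at h1
    have h2 := Finset.card_sdiff_add_card_eq_card hT
    omega
  let g : G.edgeSet → ZMod 2 := fun e =>
    if h : ∃ c ∈ C, c.1.1 = e then (h.choose).1.2 + x0 e else 0
  obtain ⟨z, hz, -, hzT⟩ := exists_extension (cyc G) hTind g
  refine ⟨x0 + z, ?_, ?_⟩
  · rw [map_add, hx0, (mem_cyc G).1 hz, add_zero]
  · intro c hc
    left
    have h1 : c.1.1 ∈ T := Finset.mem_image_of_mem _ hc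
    have h2 : ∃ c' ∈ C, c'.1.1 = c.1.1 := ⟨c, hc, rfl⟩
    have h3 : h2.choose = c := hinj h2.choose_spec.1 hc h2.choose_spec.2
    rw [Pi.add_apply, hzT _ h1]
    simp only [g]
    rw [dif_pos h2, h3]
    have : ∀ a b : ZMod 2, a + (b + a) = b := by decide
    exact this _ _

/-- **Locality lemma.** -/
lemma locality {F μ : Type*} [Field F] [Nonempty G.edgeSet] (supp : μ → Finset G.edgeSet)
    (φ : μ → (G.edgeSet → ZMod 2) → F)
    (hdep : ∀ m x y, (∀ e ∈ supp m, x e = y e) → φ m x = φ m y)
    (hkill : ∀ m, ∀ e ∈ supp m, ∃ κ : ZMod 2, ∀ x : G.edgeSet → ZMod 2, x e = κ → φ m x = 0)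
    (M : Finset μ) (w : V → ZMod 2) (C : Finset (Com G.edgeSet))
    (hC : 2 * C.card ≤ rk (cyc G) (comEdges C)) :
    ∃ (C' : Finset (Com G.edgeSet)) (S : Finset G.edgeSet),
      2 * C'.card ≤ rk (cyc G) (comEdges C') ∧ rk (cyc G) S ≤ 4 * M.card ∧
      ∀ r0 r1, (del G S).Reachable r0 r1 → ∀ x ∈ Fam G w r1 C', ∃ z ∈ Fam G w r0 C,
        ∀ m ∈ M, φ m z = φ m x := by
  have hr := isRank_rk (cyc G)
  obtain ⟨M', C1, S, I, f, hM', hC1, hS, hbound, hI1, hI2, hI3, hinj, hind⟩ :=
    select hr supp M C hC
  choose! κ hκ using hkill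
  -- new commitments
  let com : μ → Com G.edgeSet := fun m =>
    ((f (Sum.inl (m, true)), κ m (f (Sum.inl (m, true)))),
     (f (Sum.inl (m, false)), κ m (f (Sum.inl (m, false)))))
  let C' : Finset (Com G.edgeSet) := C1 ∪ (M \ M').image com
  -- the new edges
  let IT : Finset ((μ × Bool) ⊕ Com G.edgeSet) := I.filter (fun i => i.isLeft)
  let T : Finset G.edgeSet := IT.image f
  have hIT : ∀ m b, Sum.inl (m, b) ∈ IT ↔ m ∈ M ∧ m ∉ M' := by
    intro m b
    simp only [IT, Finset.mem_filter, Sum.isLeft_inl, and_true]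
    exact ⟨hI2 m b, fun h => (hI1 m h.1 h.2 b).1⟩
  have hTW : T ⊆ I.image f := Finset.image_subset_image (Finset.filter_subset _ _)
  have hTcard : 2 * (M \ M').card = T.card := by
    have h1 : T.card = IT.card :=
      Finset.card_image_of_injOn (hinj.mono (by exact_mod_cast Finset.filter_subset _ _))
    have h2 : IT = ((M \ M') ×ˢ (Finset.univ : Finset Bool)).map
        ⟨Sum.inl, Sum.inl_injective⟩ := by
      ext i
      rcases i with ⟨m, b⟩ | c
      · rw [hIT]
        simp
      · simp [IT]
    rw [h1, h2, Finset.card_map, Finset.card_product, Finset.card_univ, Fintype.card_bool,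
      mul_comm]
  have hTind : rk (cyc G) S + T.card ≤ rk (cyc G) (S ∪ T) := by
    have h1 := hr.union_le_card (S ∪ T) (I.image f \ T)
    have h2 : S ∪ T ∪ (I.image f \ T) = S ∪ I.image f := by
      rw [Finset.union_assoc, Finset.union_sdiff_of_subset hTW]
    rw [h2] at h1
    have h3 := Finset.card_sdiff_add_card_eq_card hTW
    omega
  have hcom : comEdges C' = comEdges C1 ∪ T := by
    ext e
    simp only [C', mem_comEdges, Finset.mem_union, Finset.mem_image]
    constructor
    · rintro ⟨c, hc | ⟨m, hm, rfl⟩, he⟩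
      · exact Or.inl ⟨c, hc, he⟩
      · rw [Finset.mem_sdiff] at hm
        right
        rcases he with rfl | rfl
        · exact Finset.mem_image_of_mem f ((hIT m true).2 hm)
        · exact Finset.mem_image_of_mem f ((hIT m false).2 hm)
    · rintro (⟨c, hc, he⟩ | he)
      · exact ⟨c, Or.inl hc, he⟩
      · obtain ⟨i, hi, rfl⟩ := Finset.mem_image.1 he
        rcases i with ⟨m, b⟩ | c
        · rw [hIT] at hi
          refine ⟨com m, Or.inr ⟨m, Finset.mem_sdiff.2 hi, rfl⟩, ?_⟩
          cases b
          · right; rfl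
          · left; rfl
        · simp [IT] at hi
  have hC'ind : 2 * C'.card ≤ rk (cyc G) (comEdges C') := by
    have h1 := hr.submod (comEdges C1 ∪ T) S
    have h2 : comEdges C1 ⊆ (comEdges C1 ∪ T) ∩ S := by
      intro e he
      refine Finset.mem_inter.2 ⟨Finset.mem_union_left _ he, ?_⟩
      rw [hS]
      exact Finset.mem_union_right _ he
    have h3 := hr.mono _ _ h2
    have h4 : S ∪ T ⊆ comEdges C1 ∪ T ∪ S := by
      intro e he
      rcases Finset.mem_union.1 he with he | he
      · exact Finset.mem_union_right _ he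
      · exact Finset.mem_union_left _ (Finset.mem_union_right _ he)
    have h5 := hr.mono _ _ h4
    have h6 := rank_comEdges_subset hr hC hC1
    have h7 : C'.card ≤ C1.card + (M \ M').card :=
      le_trans (Finset.card_union_le _ _) (Nat.add_le_add_left Finset.card_image_le _)
    rw [hcom]
    omega
  refine ⟨C', S, hC'ind, hbound, ?_⟩
  intro r0 r1 hreach x hx
  obtain ⟨y0, hy0S, hby0⟩ := exists_path_vec G hreach
  obtain ⟨hxb, hxC⟩ := hx
  -- the target values
  let val : (μ × Bool) ⊕ Com G.edgeSet → ZMod 2 := Sum.elim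
    (fun p => y0 (f (Sum.inl p)))
    (fun c => (if f (Sum.inr c) = c.1.1 then c.1.2 else c.2.2) + x (f (Sum.inr c)) +
      y0 (f (Sum.inr c)))
  let g : G.edgeSet → ZMod 2 := fun e =>
    if h : ∃ i ∈ I, f i = e then val h.choose else 0
  have hg : ∀ i ∈ I, g (f i) = val i := by
    intro i hi
    have h2 : ∃ i' ∈ I, f i' = f i := ⟨i, hi, rfl⟩
    have h3 : h2.choose = i := hinj h2.choose_spec.1 hi h2.choose_spec.2
    simp only [g]
    rw [dif_pos h2, h3]
  obtain ⟨z0, hz0, hz0S, hz0T⟩ := exists_extension (cyc G) hind g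
  let z : G.edgeSet → ZMod 2 := x + y0 + z0
  have hzS : ∀ e ∈ S, z e = x e := by
    intro e he
    simp [z, hy0S e he, hz0S e he]
  have hzT : ∀ m ∈ M, m ∉ M' → ∀ b, z (f (Sum.inl (m, b))) = x (f (Sum.inl (m, b))) := by
    intro m hm hm' b
    have hi := (hI1 m hm hm' b).1
    have h1 := hz0T _ (Finset.mem_image_of_mem f hi)
    rw [hg _ hi] at h1
    simp only [z, Pi.add_apply, h1, val, Sum.elim_inl]
    rw [add_assoc, CharTwo.add_self_eq_zero, add_zero]
  have hC1S : comEdges C1 ⊆ S := by
    rw [hS]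
    exact Finset.subset_union_right
  refine ⟨z, ⟨?_, ?_⟩, ?_⟩
  · simp only [z, map_add, hxb, hby0, (mem_cyc G).1 hz0, add_zero]
    have h1 : dl r1 + dl r1 = (0 : V → ZMod 2) := add_self_fun _
    calc w + dl r1 + (dl r0 + dl r1) = w + dl r0 + (dl r1 + dl r1) := by abel
      _ = w + dl r0 := by rw [h1, add_zero]
  · intro c hc
    by_cases hc1 : c ∈ C1
    · have h1 := hxC c (Finset.mem_union_left _ hc1)
      unfold Com.Sat at h1 ⊢
      rw [hzS _ (hC1S (mem_comEdges.2 ⟨c, hc1, Or.inl rfl⟩)),
        hzS _ (hC1S (mem_comEdges.2 ⟨c, hc1, Or.inr rfl⟩))]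
      exact h1
    · obtain ⟨hi, hfc⟩ := hI3 c hc hc1
      have h1 := hz0T _ (Finset.mem_image_of_mem f hi)
      rw [hg _ hi] at h1
      have h2 : z (f (Sum.inr c)) = (if f (Sum.inr c) = c.1.1 then c.1.2 else c.2.2) := by
        simp only [z, Pi.add_apply, h1, val, Sum.elim_inr]
        generalize (if f (Sum.inr c) = c.1.1 then c.1.2 else c.2.2) = a
        generalize x (f (Sum.inr c)) = b
        generalize y0 (f (Sum.inr c)) = d
        revert a b d
        decide
      unfold Com.Sat
      by_cases h3 : f (Sum.inr c) = c.1.1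
      · left
        rw [if_pos h3] at h2
        rw [← h3]
        exact h2
      · right
        rw [if_neg h3] at h2
        rw [← hfc.resolve_left h3]
        exact h2
  · intro m hm
    by_cases hmM : m ∈ M'
    · refine hdep m z x ?_
      intro e he
      refine hzS e ?_
      rw [hS]
      exact Finset.mem_union_left _ (Finset.mem_biUnion.2 ⟨m, hmM, he⟩)
    · have h1 := hxC (com m) (Finset.mem_union_right _
        (Finset.mem_image_of_mem _ (Finset.mem_sdiff.2 ⟨hm, hmM⟩)))
      have ht := (hI1 m hm hmM true).2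
      have hf := (hI1 m hm hmM false).2
      rcases h1 with h1 | h1
      · have h2 : x (f (Sum.inl (m, true))) = κ m (f (Sum.inl (m, true))) := h1
        rw [hκ m _ ht x h2, hκ m _ ht z (by rw [hzT m hm hmM true]; exact h2)]
      · have h2 : x (f (Sum.inl (m, false))) = κ m (f (Sum.inl (m, false))) := h1
        rw [hκ m _ hf x h2, hκ m _ hf z (by rw [hzT m hm hmM false]; exact h2)]

end Fam

end Pool.Agent.Lib.MP_ac8845_lc
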