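import Mathlib

/-!
# Rado's theorem for rank functions, and the rank function of a space of vectors over `ZMod 2`
-/

open Finset Module

set_option linter.unusedSectionVars false

namespace Pool.Agent.Lib.MP_ac8845_lc

/-- The axioms of a matroid rank function on finite sets. -/
structure IsRank {E : Type*} [DecidableEq E] (r : Finset E → ℕ) : Prop where
  empty : r ∅ = 0
  mono : ∀ S T : Finset E, S ⊆ T → r S ≤ r T
  submod : ∀ S T : Finset E, r (S ∪ T) + r (S ∩ T) ≤ r S + r T
  insert_le : ∀ (e : E) (S : Finset E), r (insert e S) ≤ r S + 1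

namespace IsRank

variable {E : Type*} [DecidableEq E] {r : Finset E → ℕ} (hr : IsRank r)

include hr

lemma union_le (S T : Finset E) : r (S ∪ T) ≤ r S + r T :=
  le_trans (Nat.le_add_right _ _) (hr.submod S T)

lemma le_card (S : Finset E) : r S ≤ S.card := by
  induction S using Finset.induction_on with
  | empty => simp [hr.empty]
  | insert e S he ih =>
    rw [Finset.card_insert_of_notMem he]
    exact le_trans (hr.insert_le e S) (by omega)

lemma union_le_card (S T : Finset E) : r (S ∪ T) ≤ r S + T.card :=
  le_trans (hr.union_le S T) (Nat.add_le_add_left (hr.le_card T) _)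

/-- Contraction. -/
lemma contract (S : Finset E) : IsRank (fun T => r (S ∪ T) - r S) where
  empty := by simp
  mono T U h := Nat.sub_le_sub_right (hr.mono _ _ (Finset.union_subset_union_right h)) _
  submod T U := by
    have h := hr.submod (S ∪ T) (S ∪ U)
    have h1 : S ∪ T ∪ (S ∪ U) = S ∪ (T ∪ U) := by
      ext x; simp only [Finset.mem_union]; tauto
    have h2 : (S ∪ T) ∩ (S ∪ U) = S ∪ (T ∩ U) := by
      ext x; simp only [Finset.mem_union, Finset.mem_inter]; tauto
    rw [h1, h2] at h
    have h3 : r S ≤ r (S ∪ T) := hr.mono _ _ Finset.subset_union_left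
    have h4 : r S ≤ r (S ∪ U) := hr.mono _ _ Finset.subset_union_left
    have h5 : r S ≤ r (S ∪ (T ∩ U)) := hr.mono _ _ Finset.subset_union_left
    have h6 : r S ≤ r (S ∪ (T ∪ U)) := hr.mono _ _ Finset.subset_union_left
    omega
  insert_le e T := by
    have h1 : S ∪ insert e T = insert e (S ∪ T) := by
      ext x; simp only [Finset.mem_union, Finset.mem_insert]; tauto
    simp only [h1]
    have := hr.insert_le e (S ∪ T)
    omega

end IsRank

lemma biUnion_update_of_notMem {ι E : Type*} [DecidableEq ι] [DecidableEq E] (A : ι → Finset E) (i0 : ι) (B : Finset E)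
    (J : Finset ι) (h : i0 ∉ J) : J.biUnion (Function.update A i0 B) = J.biUnion A := by
  refine Finset.biUnion_congr rfl ?_
  intro j hj
  rw [Function.update_of_ne]
  rintro rfl
  exact h hj

lemma biUnion_update_of_mem {ι E : Type*} [DecidableEq ι] [DecidableEq E] (A : ι → Finset E) (i0 : ι) (B : Finset E)
    (J : Finset ι) (h : i0 ∈ J) :
    J.biUnion (Function.update A i0 B) = B ∪ (J.erase i0).biUnion A := by
  conv_lhs => rw [← Finset.insert_erase h]
  rw [Finset.biUnion_insert, Function.update_self,
    biUnion_update_of_notMem A i0 B _ (Finset.notMem_erase i0 J)]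

/-- **Rado's theorem**: a finite family of sets has an independent transversal as soon as the
union of any `k` of them has rank at least `k`. -/
theorem rado {ι E : Type*} [DecidableEq ι] [DecidableEq E] [Nonempty E] {r : Finset E → ℕ} (hr : IsRank r) (I : Finset ι) :
    ∀ (A : ι → Finset E), (∀ J ⊆ I, J.card ≤ r (J.biUnion A)) →
      ∃ f : ι → E, (∀ i ∈ I, f i ∈ A i) ∧ I.card ≤ r (I.image f) := by
  suffices H : ∀ (n : ℕ) (A : ι → Finset E), ∑ i ∈ I, (A i).card = n →
      (∀ J ⊆ I, J.card ≤ r (J.biUnion A)) →
      ∃ f : ι → E, (∀ i ∈ I, f i ∈ A i) ∧ I.card ≤ r (I.image f) from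
    fun A hA => H _ A rfl hA
  intro n
  induction n using Nat.strong_induction_on with
  | _ n ih =>
    intro A hn hA
    by_cases hbig : ∃ i0 ∈ I, 2 ≤ (A i0).card
    · obtain ⟨i0, hi0, hcard⟩ := hbig
      obtain ⟨x, hx, y, hy, hxy⟩ := Finset.one_lt_card.1 hcard
      -- removing an element
      have hstep : ∀ z ∈ A i0,
          (∀ J ⊆ I, J.card ≤ r (J.biUnion (Function.update A i0 ((A i0).erase z)))) →
          ∃ f : ι → E, (∀ i ∈ I, f i ∈ A i) ∧ I.card ≤ r (I.image f) := by
        intro z hz hcond
        have hlt : ∑ i ∈ I, ((Function.update A i0 ((A i0).erase z)) i).card < n := by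
          rw [← hn]
          refine Finset.sum_lt_sum ?_ ⟨i0, hi0, ?_⟩
          · intro i hi
            by_cases h : i = i0
            · subst h
              rw [Function.update_self]
              exact Finset.card_le_card (Finset.erase_subset _ _)
            · rw [Function.update_of_ne h]
          · rw [Function.update_self]
            exact Finset.card_erase_lt_of_mem hz
        obtain ⟨f, hf1, hf2⟩ := ih _ hlt _ rfl hcond
        refine ⟨f, ?_, hf2⟩
        intro i hi
        have := hf1 i hi
        by_cases h : i = i0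
        · subst h
          rw [Function.update_self] at this
          exact Finset.mem_of_mem_erase this
        · rwa [Function.update_of_ne h] at this
      by_cases hcx : ∀ J ⊆ I, J.card ≤ r (J.biUnion (Function.update A i0 ((A i0).erase x)))
      · exact hstep x hx hcx
      by_cases hcy : ∀ J ⊆ I, J.card ≤ r (J.biUnion (Function.update A i0 ((A i0).erase y)))
      · exact hstep y hy hcy
      exfalso
      push Not at hcx hcy
      obtain ⟨J1, hJ1, hr1⟩ := hcx
      obtain ⟨J2, hJ2, hr2⟩ := hcy
      have hm1 : i0 ∈ J1 := by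
        by_contra h
        rw [biUnion_update_of_notMem _ _ _ _ h] at hr1
        exact absurd (hA J1 hJ1) (by omega)
      have hm2 : i0 ∈ J2 := by
        by_contra h
        rw [biUnion_update_of_notMem _ _ _ _ h] at hr2
        exact absurd (hA J2 hJ2) (by omega)
      rw [biUnion_update_of_mem _ _ _ _ hm1] at hr1
      rw [biUnion_update_of_mem _ _ _ _ hm2] at hr2
      have hc1 := Finset.card_erase_of_mem hm1
      have hc2 := Finset.card_erase_of_mem hm2
      have hp1 : 0 < J1.card := Finset.card_pos.2 ⟨i0, hm1⟩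
      have hp2 : 0 < J2.card := Finset.card_pos.2 ⟨i0, hm2⟩
      have hsub := hr.submod ((A i0).erase x ∪ (J1.erase i0).biUnion A)
        ((A i0).erase y ∪ (J2.erase i0).biUnion A)
      have hU : A i0 ∪ (J1.erase i0 ∪ J2.erase i0).biUnion A ⊆
          ((A i0).erase x ∪ (J1.erase i0).biUnion A) ∪
            ((A i0).erase y ∪ (J2.erase i0).biUnion A) := by
        intro z hz
        rw [Finset.mem_union, Finset.mem_biUnion] at hz
        rcases hz with hz | ⟨j, hj, hz⟩
        · by_cases hzx : z = x
          · subst hzx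
            refine Finset.mem_union_right _ (Finset.mem_union_left _ ?_)
            exact Finset.mem_erase.2 ⟨hxy, hz⟩
          · exact Finset.mem_union_left _ (Finset.mem_union_left _ (Finset.mem_erase.2 ⟨hzx, hz⟩))
        · rcases Finset.mem_union.1 hj with hj | hj
          · exact Finset.mem_union_left _ (Finset.mem_union_right _
              (Finset.mem_biUnion.2 ⟨j, hj, hz⟩))
          · exact Finset.mem_union_right _ (Finset.mem_union_right _
              (Finset.mem_biUnion.2 ⟨j, hj, hz⟩))
      have hI : (J1.erase i0 ∩ J2.erase i0).biUnion A ⊆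
          ((A i0).erase x ∪ (J1.erase i0).biUnion A) ∩
            ((A i0).erase y ∪ (J2.erase i0).biUnion A) := by
        intro z hz
        obtain ⟨j, hj, hz⟩ := Finset.mem_biUnion.1 hz
        rw [Finset.mem_inter] at hj
        exact Finset.mem_inter.2
          ⟨Finset.mem_union_right _ (Finset.mem_biUnion.2 ⟨j, hj.1, hz⟩),
           Finset.mem_union_right _ (Finset.mem_biUnion.2 ⟨j, hj.2, hz⟩)⟩
      have h1 := hr.mono _ _ hU
      have h2 := hr.mono _ _ hI
      have h3 : (insert i0 (J1.erase i0 ∪ J2.erase i0)).card ≤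
          r ((insert i0 (J1.erase i0 ∪ J2.erase i0)).biUnion A) := by
        refine hA _ ?_
        intro j hj
        rcases Finset.mem_insert.1 hj with rfl | hj
        · exact hi0
        · rcases Finset.mem_union.1 hj with hj | hj
          · exact hJ1 (Finset.mem_of_mem_erase hj)
          · exact hJ2 (Finset.mem_of_mem_erase hj)
      rw [Finset.biUnion_insert, Finset.card_insert_of_notMem (by simp)] at h3
      have h4 : (J1.erase i0 ∩ J2.erase i0).card ≤ r ((J1.erase i0 ∩ J2.erase i0).biUnion A) := by
        refine hA _ ?_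
        intro j hj
        exact hJ1 (Finset.mem_of_mem_erase (Finset.mem_inter.1 hj).1)
      have h5 := Finset.card_union_add_card_inter (J1.erase i0) (J2.erase i0)
      omega
    · push Not at hbig
      have hne : ∀ i ∈ I, ∃ x, A i = {x} := by
        intro i hi
        have h1 := hA {i} (by simpa using hi)
        rw [Finset.card_singleton, Finset.singleton_biUnion] at h1
        have h2 := hr.le_card (A i)
        have h3 := hbig i hi
        exact Finset.card_eq_one.1 (by omega)
      choose! f hf using hne
      refine ⟨f, ?_, ?_⟩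
      · intro i hi
        rw [hf i hi]
        simp
      · have h1 : I.biUnion A = I.image f := by
          ext x
          simp only [Finset.mem_biUnion, Finset.mem_image]
          constructor
          · rintro ⟨i, hi, hx⟩
            rw [hf i hi, Finset.mem_singleton] at hx
            exact ⟨i, hi, hx.symm⟩
          · rintro ⟨i, hi, rfl⟩
            exact ⟨i, hi, by rw [hf i hi]; simp⟩
        rw [← h1]
        exact hA I (Finset.Subset.refl _)

/-! ### The rank function of a space of vectors over `ZMod 2` -/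

section Lin

variable {E : Type*}

/-- Vectors vanishing on `S`. -/
def zeroOn (S : Finset E) : Submodule (ZMod 2) (E → ZMod 2) where
  carrier := {x | ∀ e ∈ S, x e = 0}
  add_mem' := by
    intro x y hx hy e he
    simp [hx e he, hy e he]
  zero_mem' := by
    intro e _
    rfl
  smul_mem' := by
    intro c x hx e he
    simp [hx e he]

lemma mem_zeroOn {S : Finset E} {x : E → ZMod 2} : x ∈ zeroOn S ↔ ∀ e ∈ S, x e = 0 := Iff.rfl

variable [Fintype E] [DecidableEq E] (Z : Submodule (ZMod 2) (E → ZMod 2))

/-- The rank of the coordinates in `S` on the space `Z`. -/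
noncomputable def rk (S : Finset E) : ℕ :=
  finrank (ZMod 2) Z - finrank (ZMod 2) (Z ⊓ zeroOn S : Submodule (ZMod 2) (E → ZMod 2))

lemma rk_add (S : Finset E) : rk Z S +
    finrank (ZMod 2) (Z ⊓ zeroOn S : Submodule (ZMod 2) (E → ZMod 2)) = finrank (ZMod 2) Z := by
  have h : finrank (ZMod 2) (Z ⊓ zeroOn S : Submodule (ZMod 2) (E → ZMod 2)) ≤
      finrank (ZMod 2) Z := Submodule.finrank_mono inf_le_left
  unfold rk
  omega

omit [Fintype E] [DecidableEq E] in
lemma zeroOn_anti {S T : Finset E} (h : S ⊆ T) : zeroOn T ≤ zeroOn S :=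
  fun _ hx e he => hx e (h he)

lemma isRank_rk : IsRank (rk Z) where
  empty := by
    have h : (Z ⊓ zeroOn (∅ : Finset E)) = Z := by
      refine inf_eq_left.2 ?_
      intro x _ e he
      simp at he
    unfold rk
    rw [h]
    simp
  mono S T h := by
    have h1 := rk_add Z S
    have h2 := rk_add Z T
    have h3 : finrank (ZMod 2) (Z ⊓ zeroOn T : Submodule (ZMod 2) (E → ZMod 2)) ≤
        finrank (ZMod 2) (Z ⊓ zeroOn S : Submodule (ZMod 2) (E → ZMod 2)) :=
      Submodule.finrank_mono (inf_le_inf_left _ (zeroOn_anti h))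
    omega
  submod S T := by
    have h1 := rk_add Z S
    have h2 := rk_add Z T
    have h3 := rk_add Z (S ∪ T)
    have h4 := rk_add Z (S ∩ T)
    have h5 := Submodule.finrank_sup_add_finrank_inf_eq (Z ⊓ zeroOn S) (Z ⊓ zeroOn T)
    have h6 : (Z ⊓ zeroOn S) ⊔ (Z ⊓ zeroOn T) ≤ Z ⊓ zeroOn (S ∩ T) := by
      refine sup_le (inf_le_inf_left _ (zeroOn_anti Finset.inter_subset_left))
        (inf_le_inf_left _ (zeroOn_anti Finset.inter_subset_right))
    have h7 : (Z ⊓ zeroOn S) ⊓ (Z ⊓ zeroOn T) = Z ⊓ zeroOn (S ∪ T) := by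
      ext x
      simp only [Submodule.mem_inf, mem_zeroOn, Finset.mem_union]
      constructor
      · rintro ⟨⟨hx, h1⟩, -, h2⟩
        exact ⟨hx, fun e he => he.elim (h1 e) (h2 e)⟩
      · rintro ⟨hx, h⟩
        exact ⟨⟨hx, fun e he => h e (Or.inl he)⟩, hx, fun e he => h e (Or.inr he)⟩
    have h8 := Submodule.finrank_mono h6
    rw [h7] at h5
    omega
  insert_le e S := by
    have h1 := rk_add Z S
    have h2 := rk_add Z (insert e S)
    let f : (E → ZMod 2) →ₗ[ZMod 2] ZMod 2 := LinearMap.proj e
    have h3 : Z ⊓ zeroOn (insert e S) = (Z ⊓ zeroOn S) ⊓ LinearMap.ker f := by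
      ext x
      simp only [Submodule.mem_inf, mem_zeroOn, Finset.mem_insert, LinearMap.mem_ker, f,
        LinearMap.proj_apply]
      constructor
      · rintro ⟨hx, h⟩
        exact ⟨⟨hx, fun e' he' => h e' (Or.inr he')⟩, h e (Or.inl rfl)⟩
      · rintro ⟨⟨hx, h⟩, h'⟩
        refine ⟨hx, ?_⟩
        rintro e' (rfl | he')
        · exact h'
        · exact h e' he'
    have h4 := Submodule.finrank_sup_add_finrank_inf_eq (Z ⊓ zeroOn S) (LinearMap.ker f)
    have h5 := LinearMap.finrank_range_add_finrank_ker f
    have h6 : finrank (ZMod 2) (LinearMap.range f) ≤ 1 := by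
      refine le_trans (Submodule.finrank_le _) ?_
      simp
    have h7 : finrank (ZMod 2) ((Z ⊓ zeroOn S) ⊔ LinearMap.ker f :
        Submodule (ZMod 2) (E → ZMod 2)) ≤ finrank (ZMod 2) (E → ZMod 2) :=
      Submodule.finrank_le _
    rw [← h3] at h4
    omega

lemma exists_of_rk_lt {S : Finset E} {e : E} (h : rk Z S < rk Z (insert e S)) :
    ∃ z ∈ Z, (∀ e' ∈ S, z e' = 0) ∧ z e = 1 := by
  by_contra hcon
  push Not at hcon
  have h1 : Z ⊓ zeroOn (insert e S) = Z ⊓ zeroOn S := by
    refine le_antisymm (inf_le_inf_left _ (zeroOn_anti (Finset.subset_insert e S))) ?_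
    rintro x ⟨hx, hxS⟩
    refine ⟨hx, ?_⟩
    intro e' he'
    rcases Finset.mem_insert.1 he' with rfl | he'
    · have h2 := hcon x hx hxS
      have h3 : ∀ a : ZMod 2, a ≠ 1 → a = 0 := by decide
      exact h3 _ h2
    · exact hxS e' he'
  unfold rk at h
  rw [h1] at h
  exact lt_irrefl _ h

lemma rk_insert_of_exists {S : Finset E} {e : E}
    (h : ∃ z ∈ Z, (∀ e' ∈ S, z e' = 0) ∧ z e = 1) : rk Z (insert e S) = rk Z S + 1 := by
  obtain ⟨z, hz, hzS, hze⟩ := h
  have h0 := (isRank_rk Z).insert_le e S
  have h1 := rk_add Z S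
  have h2 := rk_add Z (insert e S)
  have h3 : Z ⊓ zeroOn (insert e S) < Z ⊓ zeroOn S := by
    refine lt_of_le_of_ne (inf_le_inf_left _ (zeroOn_anti (Finset.subset_insert e S))) ?_
    intro heq
    have h4 : z ∈ Z ⊓ zeroOn S := ⟨hz, hzS⟩
    rw [← heq] at h4
    have h5 := h4.2 e (Finset.mem_insert_self e S)
    rw [hze] at h5
    exact one_ne_zero h5
  have h4 := Submodule.finrank_lt_finrank_of_lt h3
  omega

/-- If `T` is independent over `S` then the values on `T` of the vectors of `Z` vanishing on `S`
are arbitrary. -/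
lemma exists_extension {S T : Finset E} (h : rk Z S + T.card ≤ rk Z (S ∪ T)) (g : E → ZMod 2) :
    ∃ z ∈ Z, (∀ e ∈ S, z e = 0) ∧ ∀ e ∈ T, z e = g e := by
  have hr := isRank_rk Z
  have key : ∀ t ∈ T, ∃ z ∈ Z, (∀ e ∈ S ∪ T.erase t, z e = 0) ∧ z t = 1 := by
    intro t ht
    refine exists_of_rk_lt Z ?_
    have h1 : insert t (S ∪ T.erase t) = S ∪ T := by
      ext x
      simp only [Finset.mem_insert, Finset.mem_union, Finset.mem_erase]
      constructor
      · rintro (rfl | h | h)
        · exact Or.inr ht
        · exact Or.inl h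
        · exact Or.inr h.2
      · rintro (h | h)
        · exact Or.inr (Or.inl h)
        · by_cases hx : x = t
          · exact Or.inl hx
          · exact Or.inr (Or.inr ⟨hx, h⟩)
    rw [h1]
    have h2 := hr.union_le_card S (T.erase t)
    have h3 := Finset.card_erase_of_mem ht
    have h4 : 0 < T.card := Finset.card_pos.2 ⟨t, ht⟩
    omega
  choose! z hz using key
  refine ⟨∑ t ∈ T, g t • z t, ?_, ?_, ?_⟩
  · exact Submodule.sum_mem _ (fun t ht => Submodule.smul_mem _ _ (hz t ht).1)
  · intro e he
    rw [Finset.sum_apply]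
    refine Finset.sum_eq_zero ?_
    intro t ht
    rw [Pi.smul_apply, (hz t ht).2.1 e (Finset.mem_union_left _ he), smul_zero]
  · intro e he
    rw [Finset.sum_apply, Finset.sum_eq_single e]
    · rw [Pi.smul_apply, (hz e he).2.2]
      simp
    · intro t ht hte
      rw [Pi.smul_apply, (hz t ht).2.1 e (Finset.mem_union_right _
        (Finset.mem_erase.2 ⟨hte.symm, he⟩)), smul_zero]
    · intro h'
      exact absurd he h'

end Lin

end Pool.Agent.Lib.MP_ac8845_lc
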